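import Pool.Agent.Helper96.GP.NDefs

/-!
# Polynomial inequality for `GG` on the unit interval (block GG)
-/

open Finset
open scoped Classical

namespace GPG

noncomputable section

theorem GG_lo (β : ℝ) : 3.28 - GG β =
      82 / 25 * (2 * β) ^ 0 * (1 - 2 * β) ^ 7 +
      1896519831 / 100000000 * (2 * β) ^ 1 * (1 - 2 * β) ^ 6 +
      2245559493 / 50000000 * (2 * β) ^ 2 * (1 - 2 * β) ^ 5 +
      564919249 / 10000000 * (2 * β) ^ 3 * (1 - 2 * β) ^ 4 +
      6547308447 / 160000000 * (2 * β) ^ 4 * (1 - 2 * β) ^ 3 +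
      2741364669 / 160000000 * (2 * β) ^ 5 * (1 - 2 * β) ^ 2 +
      3084741363 / 800000000 * (2 * β) ^ 6 * (1 - 2 * β) ^ 1 +
      2025625761 / 5600000000 * (2 * β) ^ 7 * (1 - 2 * β) ^ 0 := by
  unfold GG HH KK k0 k1 k2 k3
  ring

theorem GG_hi (β : ℝ) : 3.28 - GG β =
      2025625761 / 5600000000 * (2 * β - 1) ^ 0 * (2 - 2 * β) ^ 7 +
      966510159 / 800000000 * (2 * β - 1) ^ 1 * (2 - 2 * β) ^ 6 +
      997436121 / 800000000 * (2 * β - 1) ^ 2 * (2 - 2 * β) ^ 5 +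
      2177919 / 6400000 * (2 * β - 1) ^ 3 * (2 - 2 * β) ^ 4 +
      819733 / 10000000 * (2 * β - 1) ^ 4 * (2 - 2 * β) ^ 3 +
      27910941 / 100000000 * (2 * β - 1) ^ 5 * (2 - 2 * β) ^ 2 +
      15631653 / 100000000 * (2 * β - 1) ^ 6 * (2 - 2 * β) ^ 1 +
      670921 / 175000000 * (2 * β - 1) ^ 7 * (2 - 2 * β) ^ 0 := by
  unfold GG HH KK k0 k1 k2 k3
  ring

theorem GG_ge (β : ℝ) : GG β = β * (
      399480169 / 50000000 * (β) ^ 0 * (1 - β) ^ 6 +
      1198440507 / 25000000 * (β) ^ 1 * (1 - β) ^ 5 +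
      1069324487 / 10000000 * (β) ^ 2 * (1 - β) ^ 4 +
      1151710901 / 10000000 * (β) ^ 3 * (1 - β) ^ 3 +
      347794251 / 5000000 * (β) ^ 4 * (1 - β) ^ 2 +
      1133710189 / 50000000 * (β) ^ 5 * (1 - β) ^ 1 +
      573329079 / 175000000 * (β) ^ 6 * (1 - β) ^ 0) := by
  unfold GG HH KK k0 k1 k2 k3
  ring

theorem GG_le (β : ℝ) (hβ : 0 ≤ β) (hβ1 : β ≤ 1) : 0 ≤ GG β ∧ GG β ≤ 3.28 := by
  constructor
  · rw [GG_ge]
    have h1 : 0 ≤ 1 - β := by linarith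
    positivity
  · have : 0 ≤ 3.28 - GG β := by
      rcases le_total β (1 / 2) with h | h
      · rw [GG_lo]
        have h1 : 0 ≤ 1 - 2 * β := by linarith
        positivity
      · rw [GG_hi]
        have h1 : 0 ≤ 2 - 2 * β := by linarith
        have h2 : 0 ≤ 2 * β - 1 := by linarith
        positivity
    linarith

end

end GPG
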