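import Pool.Agent.Helper96.GP.NDefs

/-!
# The sum of the profile along a half line (block N4b)
-/

open Finset
open scoped Classical

namespace GPG

noncomputable section

theorem N4b_rhoh_nonneg (y : ℝ) (h0 : 0 ≤ y) (h1 : y ≤ 1) : 0 ≤ rhoh y := by
  rw [rhoh_eq]
  nlinarith [mul_nonneg h0 (by linarith : (0:ℝ) ≤ 1 - y), sq_nonneg y, mul_nonneg (sq_nonneg (1 - y)) h0,
    mul_nonneg (sq_nonneg (1 - y)) (by linarith : (0:ℝ) ≤ 1 - y)]

theorem N4b_rhoh_le (y : ℝ) (h0 : 0 ≤ y) (h1 : y ≤ 1) : rhoh y ≤ 2 := by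
  rw [rhoh_eq]
  have : y ^ 3 ≤ y ^ 2 := by nlinarith [sq_nonneg y]
  nlinarith [sq_nonneg y]

theorem N4b_rhoh_anti (x y : ℝ) (h0 : 0 ≤ x) (hxy : x ≤ y) (h1 : y ≤ 1) : rhoh y ≤ rhoh x := by
  rw [rhoh_eq, rhoh_eq]
  -- rhoh x - rhoh y = (y - x) * (171/50 (x+y) - 57/25 (x^2 + x y + y^2))
  have h2 : 0 ≤ (y - x) * (171 / 50 * (x + y) - 57 / 25 * (x ^ 2 + x * y + y ^ 2)) := by
    apply mul_nonneg (by linarith)
    have a1 : x ^ 2 ≤ x := by nlinarith
    have a2 : y ^ 2 ≤ y := by nlinarith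
    have a3 : x * y ≤ x := by nlinarith
    have a4 : x * y ≤ y := by nlinarith
    nlinarith
  nlinarith [h2]

/-- `(y - x) * rhoh y ≤ ∫ x..y` -/
theorem N4b_step (x y : ℝ) (h0 : 0 ≤ x) (hxy : x ≤ y) (h1 : y ≤ 1) :
    (y - x) * rhoh y ≤ RR y - RR x := by
  have hd : ∀ t : ℝ, HasDerivAt RR (rhoh t) t := by
    intro t
    have e1 : HasDerivAt (fun y : ℝ => 19987 / 10000 * y - 57 / 50 * y ^ 3 + 57 / 100 * y ^ 4)
        (19987 / 10000 * 1 - 57 / 50 * (3 * t ^ 2 * 1) + 57 / 100 * (4 * t ^ 3 * 1)) t := by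
      have b1 := (hasDerivAt_id' t).const_mul (19987 / 10000 : ℝ)
      have b2 := ((hasDerivAt_id' t).pow 3).const_mul (57 / 50 : ℝ)
      have b3 := ((hasDerivAt_id' t).pow 4).const_mul (57 / 100 : ℝ)
      have := (b1.sub b2).add b3
      refine HasDerivAt.congr_deriv this ?_
      norm_num
    have e2 : RR = (fun y : ℝ => 19987 / 10000 * y - 57 / 50 * y ^ 3 + 57 / 100 * y ^ 4) := by
      ext y; rfl
    rw [e2]
    convert e1 using 1
    rw [rhoh_eq]; ring
  have hcont : ContinuousOn RR (Set.Icc x y) := fun t _ => (hd t).continuousAt.continuousWithinAt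
  have hdiff : DifferentiableOn ℝ RR (interior (Set.Icc x y)) :=
    fun t _ => (hd t).differentiableAt.differentiableWithinAt
  have key := (convex_Icc x y).mul_sub_le_image_sub_of_le_deriv hcont hdiff (C := rhoh y)
    (by
      intro t ht
      rw [interior_Icc] at ht
      rw [(hd t).deriv]
      exact N4b_rhoh_anti t y (by linarith [ht.1]) ht.2.le h1) x
    (Set.left_mem_Icc.2 hxy) y (Set.right_mem_Icc.2 hxy) hxy
  linarith

theorem N4b_Dd_mono (β r s : ℝ) (hβ1 : β ≤ 1) (hrs : r ≤ s) (hr : 0 ≤ r) (hs : s ≤ β) :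
    Dd β r ≤ Dd β s := by
  rw [← RR_sub, ← RR_sub]
  have h := N4b_step (β - s) (β - r) (by linarith) (by linarith) (by linarith)
  have h2 := N4b_rhoh_nonneg (β - r) (by linarith) (by linarith)
  nlinarith [mul_nonneg (by linarith : (0:ℝ) ≤ (β - r) - (β - s)) h2]

theorem N4b_Dd_nonneg (β r : ℝ) (hβ1 : β ≤ 1) (hr : 0 ≤ r) (hs : r ≤ β) : 0 ≤ Dd β r := by
  have := N4b_Dd_mono β 0 r hβ1 hr le_rfl hs
  have h0 : Dd β 0 = 0 := by unfold Dd; ring
  linarith

theorem N4b_Dd_le (β r : ℝ) (hβ1 : β ≤ 1) (hr : 0 ≤ r) (hs : r ≤ β) : Dd β r ≤ 2 * r := by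
  -- RR β - RR (β - r) ≤ r * rhoh (β - r) is not needed: use `2 y - RR y` increasing
  rw [← RR_sub]
  have key : ∀ x y : ℝ, 0 ≤ x → x ≤ y → y ≤ 1 → RR y - RR x ≤ 2 * (y - x) := by
    intro x y h0 hxy h1
    unfold RR
    have e : 2 * (y - x) - ((19987 / 10000 * y - 57 / 50 * y ^ 3 + 57 / 100 * y ^ 4) -
        (19987 / 10000 * x - 57 / 50 * x ^ 3 + 57 / 100 * x ^ 4)) =
        (y - x) * (13 / 10000 + 57 / 50 * (x ^ 2 + x * y + y ^ 2) -
          57 / 100 * (x ^ 3 + x ^ 2 * y + x * y ^ 2 + y ^ 3)) := by ring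
    have h2 : 0 ≤ (y - x) * (13 / 10000 + 57 / 50 * (x ^ 2 + x * y + y ^ 2) -
          57 / 100 * (x ^ 3 + x ^ 2 * y + x * y ^ 2 + y ^ 3)) := by
      apply mul_nonneg (by linarith)
      have hx1 : x ≤ 1 := by linarith
      have hy0 : 0 ≤ y := by linarith
      have a1 : x ^ 3 ≤ x ^ 2 := by nlinarith [sq_nonneg x]
      have a2 : y ^ 3 ≤ y ^ 2 := by nlinarith [sq_nonneg y]
      have a3 : x ^ 2 * y ≤ x ^ 2 := by nlinarith [sq_nonneg x]
      have a4 : x * y ^ 2 ≤ y ^ 2 := by nlinarith [sq_nonneg y]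
      nlinarith [mul_nonneg h0 hy0, sq_nonneg x, sq_nonneg y]
    linarith
  have := key (β - r) β (by linarith) (by linarith) hβ1
  linarith

/-- induction over the points -/
theorem N4b_sum (β δ : ℝ) (hβ1 : β ≤ 1) (hδ : 0 < δ) (N : ℕ) (hN : N * δ ≤ β) :
    ∑ k ∈ Icc 1 N, rhoh (β - k * δ) ≤ (1 / δ) * Dd β (N * δ) + (rhoh (β - N * δ) - rhoh β) := by
  induction N with
  | zero =>
    have h0 : Dd β ((0 : ℕ) * δ) = 0 := by unfold Dd; push_cast; ring
    rw [h0]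
    simp
  | succ N ih =>
    have hN' : (N : ℝ) * δ ≤ β := by push_cast at hN; nlinarith
    have ih' := ih hN'
    rw [Finset.sum_Icc_succ_top (by omega)]
    have hstep := N4b_step (β - (N + 1 : ℕ) * δ) (β - N * δ) (by linarith) (by push_cast; nlinarith)
      (by nlinarith [mul_nonneg (Nat.cast_nonneg (α := ℝ) N) hδ.le])
    have e1 : (β - N * δ) - (β - (N + 1 : ℕ) * δ) = δ := by push_cast; ring
    rw [e1] at hstep
    have e2 : Dd β ((N + 1 : ℕ) * δ) - Dd β (N * δ) =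
        RR (β - N * δ) - RR (β - (N + 1 : ℕ) * δ) := by
      rw [← RR_sub, ← RR_sub]; ring
    have e3 : rhoh (β - N * δ) ≤ (1 / δ) * (Dd β ((N + 1 : ℕ) * δ) - Dd β (N * δ)) := by
      rw [e2, one_div, inv_mul_eq_div, le_div_iff₀ hδ]
      linarith
    have e4 : (1 / δ) * (Dd β ((N + 1 : ℕ) * δ) - Dd β (N * δ)) =
      (1 / δ) * Dd β ((N + 1 : ℕ) * δ) - (1 / δ) * Dd β (N * δ) := by ring
    linarith

theorem N4b_SS_nonneg (n X b p q : ℕ) (hb : b < n) : 0 ≤ SS n X b p q := by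
  unfold SS
  apply Finset.sum_nonneg
  intro k hk
  rw [mem_filter] at hk
  have hn : (0 : ℝ) < n := by exact_mod_cast (by omega : 0 < n)
  have h1 : ((k * q : ℕ) : ℝ) ≤ (b : ℝ) := by exact_mod_cast hk.2.2.1
  have h2 : ((b : ℝ) + 1) ≤ n := by exact_mod_cast hb
  push_cast at h1
  apply N4b_rhoh_nonneg
  · apply div_nonneg _ hn.le
    linarith
  · rw [div_le_one hn]
    have : (0 : ℝ) ≤ k * q := by positivity
    linarith

theorem NT4b (n X b p q : ℕ) (hX : X < n) (hb : b < n) (hp : 1 ≤ p) (hq : 1 ≤ q) :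
    SS n X b p q ^ 2 ≤ (n : ℝ) ^ 2 *
      (Dd (((b : ℝ) + 1 / 2) / n) (min (((b : ℝ) + 1 / 2) / n) ((X : ℝ) / n * q / p)) ^ 2 / q ^ 2)
      + 8 * n / max (p : ℝ) q + 4 := by
  have hn0 : 0 < n := by omega
  have hn : (0 : ℝ) < n := by exact_mod_cast hn0
  have hp' : (0 : ℝ) < p := by exact_mod_cast (by omega : 0 < p)
  have hq' : (0 : ℝ) < q := by exact_mod_cast (by omega : 0 < q)
  set β : ℝ := ((b : ℝ) + 1 / 2) / n with hβ
  have hb1 : ((b : ℝ) + 1) ≤ n := by exact_mod_cast hb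
  have hβ0 : 0 < β := by positivity
  have hβ1 : β ≤ 1 := by
    rw [hβ, div_le_one hn]; linarith
  set r : ℝ := min β ((X : ℝ) / n * q / p) with hr
  have hr0 : 0 ≤ r := by
    rw [hr]
    apply le_min hβ0.le
    positivity
  have hrβ : r ≤ β := min_le_left _ _
  set N : ℕ := min (b / q) (X / p) with hN
  have hNq : N * q ≤ b := le_trans (Nat.mul_le_mul_right q (min_le_left _ _)) (Nat.div_mul_le_self b q)
  have hNp : N * p ≤ X := le_trans (Nat.mul_le_mul_right p (min_le_right _ _)) (Nat.div_mul_le_self X p)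
  have hNq' : (N : ℝ) * q ≤ b := by exact_mod_cast hNq
  have hNp' : (N : ℝ) * p ≤ X := by exact_mod_cast hNp
  set δ : ℝ := (q : ℝ) / n with hδ
  have hδ0 : 0 < δ := by positivity
  -- the filter is an interval
  have hfil : (range (b + 1)).filter (fun k => 1 ≤ k ∧ k * q ≤ b ∧ k * p ≤ X) = Icc 1 N := by
    ext k
    rw [mem_filter, mem_range, mem_Icc]
    constructor
    · rintro ⟨h1, h2, h3, h4⟩
      refine ⟨h2, ?_⟩
      rw [hN]
      apply le_min
      · exact (Nat.le_div_iff_mul_le (by omega)).2 h3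
      · exact (Nat.le_div_iff_mul_le (by omega)).2 h4
    · rintro ⟨h1, h2⟩
      have h3 : k * q ≤ b := le_trans (Nat.mul_le_mul_right q h2) hNq
      have h4 : k * p ≤ X := le_trans (Nat.mul_le_mul_right p h2) hNp
      refine ⟨?_, h1, h3, h4⟩
      have : k * 1 ≤ k * q := Nat.mul_le_mul_left k hq
      omega
  have hSS : SS n X b p q = ∑ k ∈ Icc 1 N, rhoh (β - k * δ) := by
    unfold SS
    rw [hfil]
    apply Finset.sum_congr rfl
    intro k _
    congr 1
    rw [hβ, hδ]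
    ring
  have hNδ : (N : ℝ) * δ ≤ r := by
    rw [hr]
    apply le_min
    · rw [hδ, hβ, ← mul_div_assoc]
      apply div_le_div_of_nonneg_right _ hn.le
      linarith
    · rw [hδ, le_div_iff₀ hp']
      have : (N : ℝ) * (q / n) * p = (N * p) * (q / n) := by ring
      rw [this]
      calc (N * p : ℝ) * (q / n) ≤ X * (q / n) := by
            apply mul_le_mul_of_nonneg_right hNp'; positivity
        _ = (X : ℝ) / n * q := by ring
  have hNδ0 : 0 ≤ (N : ℝ) * δ := by positivity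
  have hsum := N4b_sum β δ hβ1 hδ0 N (le_trans hNδ hrβ)
  have h1 : rhoh (β - N * δ) ≤ 2 := N4b_rhoh_le _ (by linarith) (by linarith)
  have h2 : 0 ≤ rhoh β := N4b_rhoh_nonneg _ hβ0.le hβ1
  have h3 : Dd β (N * δ) ≤ Dd β r := N4b_Dd_mono β _ _ hβ1 hNδ hNδ0 hrβ
  have hD0 : 0 ≤ Dd β r := N4b_Dd_nonneg β r hβ1 hr0 hrβ
  have hD2 : Dd β r ≤ 2 * r := N4b_Dd_le β r hβ1 hr0 hrβ
  have hS : SS n X b p q ≤ (n / q) * Dd β r + 2 := by
    rw [hSS]
    have e : (1 : ℝ) / δ = n / q := by rw [hδ]; field_simp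
    rw [e] at hsum
    have : (n : ℝ) / q * Dd β (N * δ) ≤ n / q * Dd β r := by
      apply mul_le_mul_of_nonneg_left h3; positivity
    linarith
  have hS0 := N4b_SS_nonneg n X b p q hb
  have hE0 : 0 ≤ (n : ℝ) / q * Dd β r := by positivity
  -- the cross term
  have hcross : (n : ℝ) / q * Dd β r ≤ 2 * n / max (p : ℝ) q := by
    have hmax : 0 < max (p : ℝ) q := lt_max_of_lt_left hp'
    rw [le_div_iff₀ hmax]
    rcases le_total (p : ℝ) q with h | h
    · rw [max_eq_right h]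
      have : (n : ℝ) / q * Dd β r * q = n * Dd β r := by field_simp
      rw [this]
      nlinarith
    · rw [max_eq_left h]
      have hr2 : r ≤ (X : ℝ) / n * q / p := min_le_right _ _
      have h4 : Dd β r ≤ 2 * ((X : ℝ) / n * q / p) := by linarith
      have hX' : (X : ℝ) ≤ n := by exact_mod_cast hX.le
      calc (n : ℝ) / q * Dd β r * p ≤ (n : ℝ) / q * (2 * ((X : ℝ) / n * q / p)) * p := by
            apply mul_le_mul_of_nonneg_right _ hp'.le
            apply mul_le_mul_of_nonneg_left h4; positivity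
        _ = 2 * X := by field_simp
        _ ≤ 2 * n := by linarith
  have hsq : SS n X b p q ^ 2 ≤ ((n / q) * Dd β r + 2) ^ 2 := by
    apply pow_le_pow_left₀ hS0 hS
  have hexp : ((n : ℝ) / q * Dd β r + 2) ^ 2 = (n : ℝ) ^ 2 * (Dd β r ^ 2 / q ^ 2) +
      4 * ((n : ℝ) / q * Dd β r) + 4 := by
    field_simp
    ring
  have : (8 : ℝ) * n / max (p : ℝ) q = 4 * (2 * n / max (p : ℝ) q) := by ring
  rw [this]
  linarith

end

end GPG
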