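import Pool.Agent.Helper58.GP.N4b

/-!
# The sum over `p` by comparison with an antiderivative (block N4c)
-/

open Finset
open scoped Classical

namespace GPG

noncomputable section

theorem N4c_HH_deriv (β r : ℝ) : HasDerivAt (fun r => HH β r) (KK β r ^ 2) r := by
  have b1 := (hasDerivAt_id' r).const_mul (k0 β ^ 2)
  have b2 := ((hasDerivAt_id' r).pow 2).const_mul (k0 β * k1 β)
  have b3 := ((hasDerivAt_id' r).pow 3).const_mul ((k1 β ^ 2 + 2 * k0 β * k2 β) / 3)
  have b4 := ((hasDerivAt_id' r).pow 4).const_mul ((k0 β * k3 + k1 β * k2 β) / 2)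
  have b5 := ((hasDerivAt_id' r).pow 5).const_mul ((k2 β ^ 2 + 2 * k1 β * k3) / 5)
  have b6 := ((hasDerivAt_id' r).pow 6).const_mul (k2 β * k3 / 3)
  have b7 := ((hasDerivAt_id' r).pow 7).const_mul (k3 ^ 2 / 7)
  have hs := (((((b1.add b2).add b3).add b4).add b5).add b6).add b7
  have e : (fun r => HH β r) = ((((((fun y => k0 β ^ 2 * y) + fun y => k0 β * k1 β * y ^ 2) +
      fun y => (k1 β ^ 2 + 2 * k0 β * k2 β) / 3 * y ^ 3) +
      fun y => (k0 β * k3 + k1 β * k2 β) / 2 * y ^ 4) +
      fun y => (k2 β ^ 2 + 2 * k1 β * k3) / 5 * y ^ 5) +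
      fun y => k2 β * k3 / 3 * y ^ 6) + fun y => k3 ^ 2 / 7 * y ^ 7 := by
    ext y
    simp only [Pi.add_apply]
    unfold HH
    ring
  rw [e]
  refine HasDerivAt.congr_deriv hs ?_
  unfold KK
  norm_num
  ring

/-- comparison with the antiderivative -/
theorem N4c_step (β A s t : ℝ) (hβ1 : β ≤ 1) (hA : 0 ≤ A) (hs : 0 < s) (hst : s ≤ t)
    (hAs : A / s ≤ β) :
    (t - s) * Dd β (A / t) ^ 2 ≤ A * (HH β (A / s) - HH β (A / t)) := by
  set f : ℝ → ℝ := fun x => - (A * HH β (A / x)) with hf
  have hd : ∀ x : ℝ, 0 < x → HasDerivAt f (Dd β (A / x) ^ 2) x := by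
    intro x hx
    have e1 : HasDerivAt (fun x : ℝ => A / x) (-(A / x ^ 2)) x := by
      have h0 := (hasDerivAt_inv hx.ne').const_mul A
      have e2 : (fun x : ℝ => A / x) = fun x => A * x⁻¹ := by ext x; rw [div_eq_mul_inv]
      rw [e2]
      refine HasDerivAt.congr_deriv h0 ?_
      field_simp
    have e3 := (N4c_HH_deriv β (A / x)).comp x e1
    have e4 := (e3.const_mul A).neg
    refine HasDerivAt.congr_deriv e4 ?_
    unfold Dd
    field_simp
  have hst0 : ∀ x ∈ Set.Icc s t, 0 < x := fun x hx => lt_of_lt_of_le hs hx.1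
  have hcont : ContinuousOn f (Set.Icc s t) :=
    fun x hx => (hd x (hst0 x hx)).continuousAt.continuousWithinAt
  have hdiff : DifferentiableOn ℝ f (interior (Set.Icc s t)) :=
    fun x hx => (hd x (hst0 x (interior_subset hx))).differentiableAt.differentiableWithinAt
  have ht : 0 < t := lt_of_lt_of_le hs hst
  have key := (convex_Icc s t).mul_sub_le_image_sub_of_le_deriv hcont hdiff
    (C := Dd β (A / t) ^ 2)
    (by
      intro x hx
      have hx' := interior_subset hx
      have hx0 := hst0 x hx'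
      rw [(hd x hx0).deriv]
      have h1 : A / t ≤ A / x := by
        apply div_le_div_of_nonneg_left hA hx0 hx'.2
      have h2 : A / x ≤ β := le_trans (div_le_div_of_nonneg_left hA hs hx'.1) hAs
      have h3 : 0 ≤ A / t := by positivity
      apply pow_le_pow_left₀ (N4b_Dd_nonneg β _ hβ1 h3 (le_trans h1 h2))
      exact N4b_Dd_mono β _ _ hβ1 h1 h3 h2) s
    (Set.left_mem_Icc.2 hst) t (Set.right_mem_Icc.2 hst) hst
  rw [hf] at key
  simp only at key
  linarith

theorem N4c_HH_nonneg (β r : ℝ) (hr : 0 ≤ r) : 0 ≤ HH β r := by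
  have hmono : MonotoneOn (fun r => HH β r) (Set.Ici 0) := by
    apply monotoneOn_of_deriv_nonneg (convex_Ici 0)
    · exact fun x _ => (N4c_HH_deriv β x).continuousAt.continuousWithinAt
    · exact fun x _ => (N4c_HH_deriv β x).differentiableAt.differentiableWithinAt
    · intro x _
      rw [(N4c_HH_deriv β x).deriv]
      positivity
  have h := hmono (Set.mem_Ici.2 le_rfl) (Set.mem_Ici.2 hr) hr
  have h0 : HH β 0 = 0 := by unfold HH; ring
  simp only [h0] at h
  exact h

/-- the primitive of `t ↦ Dd β (min β (A / t)) ^ 2` -/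
def N4c_Phi (β A T t : ℝ) : ℝ :=
  if t ≤ T then t * Dd β β ^ 2 else T * Dd β β ^ 2 + A * (HH β β - HH β (A / t))

theorem N4c_sum (β A : ℝ) (hβ : 0 < β) (hβ1 : β ≤ 1) (hA : 0 < A) (n : ℕ) :
    ∑ p ∈ Icc 1 n, Dd β (min β (A / p)) ^ 2 ≤ N4c_Phi β A (A / β) n := by
  have hT : 0 < A / β := by positivity
  have hAT : A / (A / β) = β := by field_simp
  induction n with
  | zero =>
    unfold N4c_Phi
    rw [if_pos (by push_cast; exact hT.le)]
    simp
  | succ n ih =>
    rw [Finset.sum_Icc_succ_top (by omega)]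
    have hn1 : (0 : ℝ) < ((n + 1 : ℕ) : ℝ) := by positivity
    have hn0 : (0 : ℝ) ≤ (n : ℝ) := Nat.cast_nonneg n
    have key : Dd β (min β (A / (n + 1 : ℕ))) ^ 2 ≤
        N4c_Phi β A (A / β) (n + 1 : ℕ) - N4c_Phi β A (A / β) n := by
      unfold N4c_Phi
      by_cases h1 : ((n + 1 : ℕ) : ℝ) ≤ A / β
      · have h2 : (n : ℝ) ≤ A / β := by push_cast at h1; linarith
        rw [if_pos h1, if_pos h2]
        have h3 : β ≤ A / (n + 1 : ℕ) := by
          rw [le_div_iff₀ hn1]
          rw [le_div_iff₀ hβ] at h1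
          linarith
        rw [min_eq_left h3]
        push_cast
        linarith
      · push Not at h1
        rw [if_neg (not_le.2 h1)]
        have h3 : A / (n + 1 : ℕ) ≤ β := by
          rw [div_le_iff₀ hn1]
          rw [div_lt_iff₀ hβ] at h1
          linarith
        rw [min_eq_right h3]
        by_cases h2 : (n : ℝ) ≤ A / β
        · rw [if_pos h2]
          have hs := N4c_step β A (A / β) (n + 1 : ℕ) hβ1 hA.le hT h1.le (le_of_eq hAT)
          rw [hAT] at hs
          have h4 : Dd β (A / (n + 1 : ℕ)) ^ 2 ≤ Dd β β ^ 2 := by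
            apply pow_le_pow_left₀ (N4b_Dd_nonneg β _ hβ1 (by positivity) h3)
            exact N4b_Dd_mono β _ _ hβ1 h3 (by positivity) le_rfl
          have h5 : (A / β - n) * Dd β (A / (n + 1 : ℕ)) ^ 2 ≤ (A / β - n) * Dd β β ^ 2 :=
            mul_le_mul_of_nonneg_left h4 (by linarith)
          push_cast at hs h4 h5 ⊢
          nlinarith
        · rw [if_neg h2]
          push Not at h2
          have hn' : (0 : ℝ) < n := lt_trans hT h2
          have h6 : A / (n : ℝ) ≤ β := by
            rw [div_le_iff₀ hn']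
            rw [div_lt_iff₀ hβ] at h2
            linarith
          have hs := N4c_step β A n (n + 1 : ℕ) hβ1 hA.le hn' (by push_cast; linarith) h6
          push_cast at hs ⊢
          nlinarith
    linarith

theorem NT4c (α β : ℝ) (hα : 0 ≤ α) (hα1 : α ≤ 1) (hβ : 0 < β) (hβ1 : β ≤ 1) (n q : ℕ)
    (hq : 1 ≤ q) :
    ∑ p ∈ Icc 1 n, Dd β (min β (α * q / p)) ^ 2 ≤ α * q * GG β + 4 := by
  have hq' : (0 : ℝ) < q := by exact_mod_cast (by omega : 0 < q)
  rcases hα.eq_or_lt with h0 | hα0
  · have : ∑ p ∈ Icc 1 n, Dd β (min β (α * q / p)) ^ 2 = 0 := by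
      apply Finset.sum_eq_zero
      intro p _
      rw [← h0]
      have : min β ((0 : ℝ) * q / p) = 0 := by
        rw [zero_mul, zero_div]
        exact min_eq_right hβ.le
      rw [this]
      unfold Dd
      ring
    rw [this, ← h0]
    norm_num
  · set A : ℝ := α * q with hA
    have hA0 : 0 < A := by positivity
    have h := N4c_sum β A hβ hβ1 hA0 n
    have hGG : GG β = β * KK β β ^ 2 + HH β β := rfl
    have hT : A / β * Dd β β ^ 2 = A * (β * KK β β ^ 2) := by
      unfold Dd
      field_simp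
    have hHH : 0 ≤ HH β β := N4c_HH_nonneg β β hβ.le
    have hPhi : N4c_Phi β A (A / β) n ≤ A * GG β := by
      unfold N4c_Phi
      split_ifs with h1
      · have : (n : ℝ) * Dd β β ^ 2 ≤ A / β * Dd β β ^ 2 :=
          mul_le_mul_of_nonneg_right h1 (by positivity)
        rw [hGG]
        nlinarith [mul_nonneg hA0.le hHH]
      · have h2 : 0 ≤ HH β (A / n) := N4c_HH_nonneg β _ (by positivity)
        rw [hT, hGG]
        nlinarith [mul_nonneg hA0.le h2]
    linarith

end

end GPG
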