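import Pool.Agent.Helper99.GP.PLU

/-!
# Two class points on a line of `v` (block E2)
-/

open Finset
open scoped Classical

namespace GPG

noncomputable section

variable {L : LS} {P : Par} {pb : ℝ}

/-- `On v x = 1` when `x` is the first point of the class on the line `i` of `v` and `x`. -/
theorem E2_On_first (v : ℕ) (i : Finset ℕ) (hi : i ∈ L.ls) (hvi : v ∈ i)
    (hpre : ¬ L.pre i) (C : Finset ℕ) (x : ℕ) (hxi : x ∈ i) (hxv : x < v)
    (hmin : ∀ y ∈ C, y ∈ i → x ≤ y) (t : ℕ) (ht : t ≤ x) : (run L P C t).On v x = 1 := by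
  induction t with
  | zero => rfl
  | succ t ih =>
    have ih' := ih (by omega)
    have hstep : (run L P C (t + 1)).On v x = stepOn L P C t (run L P C t) v x := rfl
    rw [hstep, stepOn, if_neg, ih']
    rintro ⟨h1, h2, h3, h4, h5⟩
    obtain ⟨j, hj, ht', hv', hx'⟩ := h5
    have hji : j = i := L.uniq j hj i hi v x (by omega) hv' hx' hvi hxi
    subst hji
    obtain ⟨k, hk, htk, hvk, hact⟩ := h3
    have hki : k = j := L.uniq k hk j hj t v (by omega) htk hvk ht' hvi
    subst hki
    rcases hact with hp | ⟨y, hy, hyt, hyk⟩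
    · exact hpre hp
    · have := hmin y hy hyk
      omega

/-- the pairs of points of `i` have trivial factor -/
theorem E2_bd (v : ℕ) (i : Finset ℕ) (hi : i ∈ L.ls) (hvi : v ∈ i) (S0 : ℕ) (s s' : ℕ)
    (hs : s ∈ i) (hs' : s' ∈ i) (hne : s ≠ s') : bd L P S0 v s s' = 1 := by
  unfold bd
  rw [if_neg]
  rintro ⟨j, hj, h1, h2, h3, -⟩
  have : j = i := L.uniq j hj i hi s s' hne h1 h2 hs hs'
  subst this
  exact h3 hvi

theorem E2_bd_prod (v : ℕ) (i : Finset ℕ) (hi : i ∈ L.ls) (hvi : v ∈ i) (S0 : ℕ)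
    (T : Finset ℕ) (hT : ∀ s ∈ T, s ∈ i) : ∏ q ∈ prs T, bd L P S0 v q.1 q.2 = 1 := by
  apply Finset.prod_eq_one
  intro q hq
  unfold prs at hq
  rw [mem_filter, mem_product] at hq
  exact E2_bd v i hi hvi S0 _ _ (hT _ hq.1.1) (hT _ hq.1.2) (by omega)

/-- the integrand of `PLU` -/
def E2T (L : LS) (P : Par) (v : ℕ) (X Y C : Finset ℕ) : ℝ :=
  if (∀ s ∈ X ∪ Y, s < tau L P v C) then
        (run L P C v).Z v * (∏ s ∈ X, (if s ∈ C then 1 else 0) / (run L P C s).On v s) *
          ∏ s ∈ Y, pr L P C s / (run L P C s).On v s else 0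

theorem E2T_nonneg (hG : Good L P pb) (v : ℕ) (X Y C : Finset ℕ) : 0 ≤ E2T L P v X Y C := by
  unfold E2T
  split_ifs
  · apply mul_nonneg (mul_nonneg (Z_nonneg hG C v v) _)
    · apply Finset.prod_nonneg
      intro s _
      exact div_nonneg (pr_nonneg hG C s) (by linarith [On_one_le hG C s v s])
    · apply Finset.prod_nonneg
      intro s _
      apply div_nonneg
      · split_ifs <;> norm_num
      · linarith [On_one_le hG C s v s]
  · exact le_refl 0

/-- the second moment on one line -/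
theorem E2_pointwise (hG : Good L P pb) (v : ℕ) (i : Finset ℕ) (hi : i ∈ L.ls)
    (hvi : v ∈ i) (hpre : ¬ L.pre i) (C : Finset ℕ) :
    (run L P C v).Z v * (At L P v i C) ^ 2 ≤
      (∑ q ∈ (i.filter (fun z => z < v)) ×ˢ ((i.filter (fun z => z < v)).offDiag),
        (if q.1 ≠ q.2.1 ∧ q.1 ≠ q.2.2 then E2T L P v {q.1} {q.2.1, q.2.2} C else 0)) +
      pb * (∑ q ∈ (i.filter (fun z => z < v)).offDiag, E2T L P v {q.1} {q.2} C) := by
  set I := i.filter (fun z => z < v) with hI
  set J := i.filter (fun z => z < tau L P v C ∧ L.Act C i z) with hJ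
  set q : ℕ → ℝ := fun z => pr L P C z / (run L P C z).On v z with hq
  have hpb := hG.pb0
  have hZ := Z_nonneg hG C v v
  have hq0 : ∀ z, 0 ≤ q z := fun z =>
    div_nonneg (pr_nonneg hG C z) (by linarith [On_one_le hG C z v z])
  have hqpb : ∀ z, q z ≤ pb := fun z => by
    have h1 := On_one_le hG C z v z
    have : q z ≤ pr L P C z := by
      simp only [hq]
      exact div_le_self (pr_nonneg hG C z) h1
    linarith [pr_le hG C z]
  have hAt : At L P v i C = ∑ z ∈ J, q z := rfl
  have hS3 : 0 ≤ ∑ q ∈ I ×ˢ (I.offDiag),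
        (if q.1 ≠ q.2.1 ∧ q.1 ≠ q.2.2 then E2T L P v {q.1} {q.2.1, q.2.2} C else 0) := by
    apply Finset.sum_nonneg
    intro q _
    split_ifs
    · exact E2T_nonneg hG v _ _ C
    · exact le_refl 0
  have hS2 : 0 ≤ ∑ q ∈ I.offDiag, E2T L P v {q.1} {q.2} C :=
    Finset.sum_nonneg fun q _ => E2T_nonneg hG v _ _ C
  rcases J.eq_empty_or_nonempty with hJe | ⟨z0, hz0⟩
  · rw [hAt, hJe, Finset.sum_empty]
    simp only [ne_eq, OfNat.ofNat_ne_zero, not_false_eq_true, zero_pow, mul_zero]
    positivity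
  · -- the first point of the class on the line
    have hact : ∀ z ∈ J, ∃ x ∈ C, x < z ∧ x ∈ i := by
      intro z hz
      rw [hJ, mem_filter] at hz
      rcases hz.2.2 with h | h
      · exact absurd h hpre
      · exact h
    have hne : (C.filter (fun x => x ∈ i)).Nonempty := by
      obtain ⟨x, hx, -, hxi⟩ := hact z0 hz0
      exact ⟨x, mem_filter.2 ⟨hx, hxi⟩⟩
    obtain ⟨x0, hx0m, hx0⟩ := Finset.exists_min_image _ (fun x => x) hne
    rw [mem_filter] at hx0m
    have hmin : ∀ y ∈ C, y ∈ i → x0 ≤ y := fun y hy hyi => hx0 y (mem_filter.2 ⟨hy, hyi⟩)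
    have hlt : ∀ z ∈ J, x0 < z := by
      intro z hz
      obtain ⟨x, hx, hxz, hxi⟩ := hact z hz
      exact lt_of_le_of_lt (hmin x hx hxi) hxz
    have htau : ∀ z ∈ J, z < tau L P v C := fun z hz => by
      rw [hJ, mem_filter] at hz; exact hz.2.1
    have hJi : ∀ z ∈ J, z ∈ i := fun z hz => by
      rw [hJ, mem_filter] at hz; exact hz.1
    have htv := tau_le (L := L) (P := P) v C
    have hJI : ∀ z ∈ J, z ∈ I := fun z hz => by
      rw [hI, mem_filter]
      exact ⟨hJi z hz, lt_of_lt_of_le (htau z hz) htv⟩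
    have hx0tau : x0 < tau L P v C := (hlt z0 hz0).trans (htau z0 hz0)
    have hx0v : x0 < v := lt_of_lt_of_le hx0tau htv
    have hx0I : x0 ∈ I := by rw [hI, mem_filter]; exact ⟨hx0m.2, hx0v⟩
    have hOn : (run L P C x0).On v x0 = 1 :=
      E2_On_first v i hi hvi hpre C x0 hx0m.2 hx0v hmin x0 le_rfl
    -- values
    have hT3 : ∀ z ∈ J, ∀ z' ∈ J, z ≠ z' →
        E2T L P v {x0} {z, z'} C = (run L P C v).Z v * (q z * q z') := by
      intro z hz z' hz' hne'
      unfold E2T
      rw [if_pos, Finset.prod_singleton, Finset.prod_pair hne', if_pos hx0m.1, hOn]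
      · simp only [hq]; ring
      · intro s hs
        simp only [mem_union, mem_singleton, mem_insert] at hs
        rcases hs with rfl | rfl | rfl
        · exact hx0tau
        · exact htau _ hz
        · exact htau _ hz'
    have hT2 : ∀ z ∈ J, E2T L P v {x0} {z} C = (run L P C v).Z v * q z := by
      intro z hz
      unfold E2T
      rw [if_pos, Finset.prod_singleton, Finset.prod_singleton, if_pos hx0m.1, hOn]
      · simp only [hq]; ring
      · intro s hs
        simp only [mem_union, mem_singleton] at hs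
        rcases hs with rfl | rfl
        · exact hx0tau
        · exact htau _ hz
    have hsq : (∑ z ∈ J, q z) ^ 2 = (∑ p ∈ J.offDiag, q p.1 * q p.2) + ∑ z ∈ J, q z ^ 2 := by
      rw [sq, Finset.sum_mul_sum, ← Finset.sum_product', ← Finset.diag_union_offDiag,
        Finset.sum_union (Finset.disjoint_diag_offDiag J), add_comm, Finset.sum_diag]
      congr 1
      apply Finset.sum_congr rfl
      intro z _
      ring
    have hb3 : ∑ p ∈ J.offDiag, (run L P C v).Z v * (q p.1 * q p.2) ≤
        ∑ q ∈ I ×ˢ (I.offDiag),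
        (if q.1 ≠ q.2.1 ∧ q.1 ≠ q.2.2 then E2T L P v {q.1} {q.2.1, q.2.2} C else 0) := by
      have e1 : ∑ p ∈ J.offDiag, (run L P C v).Z v * (q p.1 * q p.2) =
          ∑ p ∈ (J.offDiag).image (fun p : ℕ × ℕ => (x0, p)),
          (if p.1 ≠ p.2.1 ∧ p.1 ≠ p.2.2 then E2T L P v {p.1} {p.2.1, p.2.2} C else 0) := by
        rw [Finset.sum_image]
        · apply Finset.sum_congr rfl
          intro p hp
          rw [mem_offDiag] at hp
          have h1 := hlt _ hp.1
          have h2 := hlt _ hp.2.1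
          rw [if_pos ⟨by simp only; omega, by simp only; omega⟩, hT3 _ hp.1 _ hp.2.1 hp.2.2]
        · intro a _ b _ hab
          exact (Prod.mk.inj hab).2
      rw [e1]
      apply Finset.sum_le_sum_of_subset_of_nonneg
      · intro p hp
        rw [mem_image] at hp
        obtain ⟨a, ha, rfl⟩ := hp
        rw [mem_offDiag] at ha
        rw [mem_product, mem_offDiag]
        exact ⟨hx0I, hJI _ ha.1, hJI _ ha.2.1, ha.2.2⟩
      · intro p _ _
        split_ifs
        · exact E2T_nonneg hG v _ _ C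
        · exact le_refl 0
    have hb2 : ∑ z ∈ J, (run L P C v).Z v * q z ≤ ∑ q ∈ I.offDiag, E2T L P v {q.1} {q.2} C := by
      have e1 : ∑ z ∈ J, (run L P C v).Z v * q z =
          ∑ p ∈ J.image (fun z : ℕ => (x0, z)), E2T L P v {p.1} {p.2} C := by
        rw [Finset.sum_image]
        · apply Finset.sum_congr rfl
          intro z hz
          rw [hT2 z hz]
        · intro a _ b _ hab
          exact (Prod.mk.inj hab).2
      rw [e1]
      apply Finset.sum_le_sum_of_subset_of_nonneg
      · intro p hp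
        rw [mem_image] at hp
        obtain ⟨a, ha, rfl⟩ := hp
        rw [mem_offDiag]
        have := hlt a ha
        exact ⟨hx0I, hJI _ ha, by simp only; omega⟩
      · intro p _ _
        exact E2T_nonneg hG v _ _ C
    have hb2' : ∑ z ∈ J, (run L P C v).Z v * q z ^ 2 ≤
        pb * ∑ z ∈ J, (run L P C v).Z v * q z := by
      rw [Finset.mul_sum]
      apply Finset.sum_le_sum
      intro z _
      have h1 : q z ^ 2 ≤ pb * q z := by
        rw [sq]
        exact mul_le_mul_of_nonneg_right (hqpb z) (hq0 z)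
      nlinarith [mul_le_mul_of_nonneg_left h1 hZ]
    rw [hAt, hsq, mul_add, Finset.mul_sum, Finset.mul_sum]
    have := mul_le_mul_of_nonneg_left hb2 hpb
    linarith

theorem E2 (hG : Good L P pb) (v : ℕ) (hv : v < L.N) (i : Finset ℕ) (hi : i ∈ L.ls)
    (hvi : v ∈ i) (S0 : ℕ) (hS0 : (1 / (1 - pb)) ^ S0 ≤ 1 + P.e1) (w : ℝ)
    (hpre : ¬ L.pre i)
    (hw : ∑ z ∈ i.filter (fun z => z < v), P.lam z ≤ w) :
    Ex L P v (fun C => (run L P C v).Z v * (At L P v i C) ^ 2) ≤
      (1 + P.e1) ^ 9 * (w ^ 3 + pb * w ^ 2) := by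
  set I := i.filter (fun z => z < v) with hI
  have hpb := hG.pb0
  have he := hG.e10
  have he1 : (1 : ℝ) ≤ 1 + P.e1 := by linarith
  have hIi : ∀ z ∈ I, z ∈ i := fun z hz => by rw [hI, mem_filter] at hz; exact hz.1
  have hIv : ∀ z ∈ I, z < v := fun z hz => by rw [hI, mem_filter] at hz; exact hz.2
  have hlam := hG.lam0
  set S := ∑ z ∈ I, P.lam z with hS
  have hS0' : 0 ≤ S := Finset.sum_nonneg fun z _ => hlam z
  have hw0 : 0 ≤ w := hS0'.trans hw
  have step1 := Ex_mono (L := L) (P := P) hG v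
    (fun C => (run L P C v).Z v * (At L P v i C) ^ 2)
    (fun C => (∑ q ∈ I ×ˢ (I.offDiag),
        (if q.1 ≠ q.2.1 ∧ q.1 ≠ q.2.2 then E2T L P v {q.1} {q.2.1, q.2.2} C else 0)) +
      pb * (∑ q ∈ I.offDiag, E2T L P v {q.1} {q.2} C))
    (fun C _ _ => E2_pointwise hG v i hi hvi hpre C)
  refine step1.trans ?_
  rw [Ex_add, Ex_const_mul, Ex_sum, Ex_sum]
  have h3 : ∀ q ∈ I ×ˢ (I.offDiag),
      Ex L P v (fun C => if q.1 ≠ q.2.1 ∧ q.1 ≠ q.2.2 then
        E2T L P v {q.1} {q.2.1, q.2.2} C else 0) ≤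
        (1 + P.e1) ^ 9 * (P.lam q.1 * (P.lam q.2.1 * P.lam q.2.2)) := by
    rintro ⟨x, z, z'⟩ hq
    rw [mem_product, mem_offDiag] at hq
    obtain ⟨hx, hz, hz', hne⟩ := hq
    simp only at hx hz hz' hne ⊢
    by_cases hc : x ≠ z ∧ x ≠ z'
    · simp only [hc, and_self, if_true, ne_eq, not_false_eq_true]
      have hXY : Disjoint ({x} : Finset ℕ) {z, z'} := by
        rw [Finset.disjoint_singleton_left, mem_insert, mem_singleton]
        push Not
        exact hc
      have hmem : ∀ s ∈ ({x} : Finset ℕ) ∪ {z, z'}, s ∈ I := by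
        intro s hs
        simp only [mem_union, mem_singleton, mem_insert] at hs
        rcases hs with rfl | rfl | rfl <;> assumption
      have key := PLU (L := L) (P := P) hG v hv.le {x} {z, z'} hXY
        (fun s hs => hIv s (hmem s hs)) S0 hS0
      rw [E2_bd_prod v i hi hvi S0 _ (fun s hs => hIi s (hmem s hs)), mul_one] at key
      have hcard : (({x} : Finset ℕ) ∪ {z, z'}).card = 3 := by
        rw [Finset.card_union_of_disjoint hXY, Finset.card_singleton, Finset.card_pair hne]
      rw [hcard, Finset.prod_union hXY, Finset.prod_singleton, Finset.prod_pair hne] at key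
      exact key
    · have hc' : ¬ (x ≠ z ∧ x ≠ z') := hc
      simp only [hc', if_false]
      have : Ex L P v (fun _ => (0 : ℝ)) = 0 := by
        unfold Ex; simp
      rw [this]
      have := hlam x
      have := hlam z
      have := hlam z'
      positivity
  have h2 : ∀ q ∈ I.offDiag,
      Ex L P v (fun C => E2T L P v {q.1} {q.2} C) ≤
        (1 + P.e1) ^ 9 * (P.lam q.1 * P.lam q.2) := by
    rintro ⟨x, z⟩ hq
    rw [mem_offDiag] at hq
    obtain ⟨hx, hz, hne⟩ := hq
    simp only at hx hz hne ⊢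
    have hXY : Disjoint ({x} : Finset ℕ) {z} := by
      rw [Finset.disjoint_singleton_left, mem_singleton]
      exact hne
    have hmem : ∀ s ∈ ({x} : Finset ℕ) ∪ {z}, s ∈ I := by
      intro s hs
      simp only [mem_union, mem_singleton] at hs
      rcases hs with rfl | rfl <;> assumption
    have key := PLU (L := L) (P := P) hG v hv.le {x} {z} hXY
      (fun s hs => hIv s (hmem s hs)) S0 hS0
    rw [E2_bd_prod v i hi hvi S0 _ (fun s hs => hIi s (hmem s hs)), mul_one] at key
    have hcard : (({x} : Finset ℕ) ∪ {z}).card = 2 := by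
      rw [Finset.card_union_of_disjoint hXY, Finset.card_singleton, Finset.card_singleton]
    rw [hcard, Finset.prod_union hXY, Finset.prod_singleton, Finset.prod_singleton] at key
    refine (show Ex L P v (fun C => E2T L P v {x} {z} C) ≤ _ from key).trans ?_
    apply mul_le_mul_of_nonneg_right (pow_le_pow_right₀ he1 (by norm_num))
    exact mul_nonneg (hlam x) (hlam z)
  have hsub : ∑ q ∈ I.offDiag, P.lam q.1 * P.lam q.2 ≤ S * S := by
    rw [hS, Finset.sum_mul_sum, ← Finset.sum_product']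
    apply Finset.sum_le_sum_of_subset_of_nonneg
    · intro p hp
      rw [mem_offDiag] at hp
      exact mem_product.2 ⟨hp.1, hp.2.1⟩
    · intro p _ _
      exact mul_nonneg (hlam _) (hlam _)
  have hsub0 : 0 ≤ ∑ q ∈ I.offDiag, P.lam q.1 * P.lam q.2 :=
    Finset.sum_nonneg fun q _ => mul_nonneg (hlam _) (hlam _)
  have H3 : ∑ q ∈ I ×ˢ (I.offDiag), Ex L P v (fun C => if q.1 ≠ q.2.1 ∧ q.1 ≠ q.2.2 then
        E2T L P v {q.1} {q.2.1, q.2.2} C else 0) ≤ (1 + P.e1) ^ 9 * w ^ 3 := by
    refine (Finset.sum_le_sum h3).trans ?_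
    rw [← Finset.mul_sum]
    apply mul_le_mul_of_nonneg_left _ (by positivity)
    rw [Finset.sum_product]
    simp only
    have : ∀ x ∈ I, ∑ y ∈ I.offDiag, P.lam x * (P.lam y.1 * P.lam y.2) =
        P.lam x * ∑ y ∈ I.offDiag, P.lam y.1 * P.lam y.2 := fun x _ => by
      rw [Finset.mul_sum]
    rw [Finset.sum_congr rfl this, ← Finset.sum_mul]
    calc S * ∑ q ∈ I.offDiag, P.lam q.1 * P.lam q.2 ≤ S * (S * S) :=
          mul_le_mul_of_nonneg_left hsub hS0'
      _ ≤ w ^ 3 := by
          have : S * (S * S) = S ^ 3 := by ring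
          rw [this]
          exact pow_le_pow_left₀ hS0' hw 3
  have H2 : ∑ q ∈ I.offDiag, Ex L P v (fun C => E2T L P v {q.1} {q.2} C) ≤
      (1 + P.e1) ^ 9 * w ^ 2 := by
    refine (Finset.sum_le_sum h2).trans ?_
    rw [← Finset.mul_sum]
    apply mul_le_mul_of_nonneg_left _ (by positivity)
    calc ∑ q ∈ I.offDiag, P.lam q.1 * P.lam q.2 ≤ S * S := hsub
      _ ≤ w ^ 2 := by
          rw [← sq]
          exact pow_le_pow_left₀ hS0' hw 2
  have := mul_le_mul_of_nonneg_left H2 hpb
  nlinarith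

end

end GPG
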